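import Pool.Agent.V8H47.ALT.TSim
import Pool.Agent.V8H47.MH.Univ

/-!
# Simulations by deterministic paths
-/

namespace Pool.Agent.V8H47.ALT

open Pool.Agent.V8H47.MH Relation

/-- deterministic paths of a given length -/
inductive DTn {X : Type} (s : X → X → Prop) (F : X → Prop) : ℕ → X → X → Prop
  | refl {x : X} : DTn s F 0 x x
  | head {n : ℕ} {x y z : X} : DS s F x y → DTn s F n y z → DTn s F (n + 1) x z

theorem dtn_of_dt {X : Type} {s : X → X → Prop} {F : X → Prop} {ν : X → ℕ}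
    (hν : ∀ x y, DS s F x y → ν y < ν x ∨ y = x) {x y : X} (h : DT s F x y) :
    ∃ n ≤ ν x, DTn s F n x y := by
  unfold DT at h
  induction h using ReflTransGen.head_induction_on with
  | refl => exact ⟨0, Nat.zero_le _, .refl⟩
  | @head x z hs _ ih =>
    obtain ⟨n, h1, h2⟩ := ih
    rcases hν x z hs with h | rfl
    · exact ⟨n + 1, by omega, .head hs h2⟩
    · exact ⟨n, h1, h2⟩

/-- A simulation where each step is simulated by a step and a deterministic path. -/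
structure BSim {A B : Type} (r : A → A → Prop) (U F : A → Prop) (s : B → B → Prop)
    (V G : B → Prop) (P : A → B → Prop) (Mn : B → Prop) (ν : B → ℕ) (b0 : ℕ) : Prop where
  lab : ∀ a b, P a b → (U a ↔ V b)
  fin : ∀ a b, P a b → (F a ↔ G b)
  gm : ∀ b, G b → Mn b
  fwd : ∀ a b a', P a b → r a a' → ∃ b1 b', s b b1 ∧ DT s Mn b1 b' ∧ P a' b'
  bwd : ∀ a b b1, P a b → s b b1 → ∃ a' b', r a a' ∧ DT s Mn b1 b' ∧ P a' b'
  inv : ∀ x y, ¬ Mn x → s x y → (V x ↔ V y)
  dec : ∀ x y, ¬ Mn x → s x y → ν y < ν x ∨ y = x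
  bd : ∀ x, ν x ≤ b0

variable {A B : Type} {r : A → A → Prop} {U F : A → Prop} {s : B → B → Prop}
  {V G : B → Prop} {P : A → B → Prop} {Mn : B → Prop} {ν : B → ℕ} {b0 : ℕ}

theorem BSim.lab_path (h : BSim r U F s V G P Mn ν b0) {n : ℕ} {x y : B} (hd : DTn s Mn n x y) :
    V x ↔ V y := by
  induction hd with
  | refl => exact Iff.rfl
  | head hs _ ih => exact (h.inv _ _ hs.1 hs.2.1).trans ih

theorem BSim.toTSim (h : BSim r U F s V G P Mn ν b0) :
    TSim r U F s V G (fun n a b => ∃ b', DTn s Mn n b b' ∧ P a b') b0 where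
  lab := by
    rintro n a b ⟨b', h1, h2⟩
    exact (h.lab a b' h2).trans (h.lab_path h1).symm
  fin := by
    rintro a b ⟨b', h1, h2⟩
    cases h1
    exact h.fin a b h2
  fwd := by
    rintro a b a' ⟨b', h1, h2⟩ hr
    cases h1
    obtain ⟨b1, b', h3, h4, h5⟩ := h.fwd a b a' h2 hr
    obtain ⟨n, _, h6⟩ := dtn_of_dt (ν := ν) (fun x y hs => h.dec x y hs.1 hs.2.1) h4
    exact ⟨b1, n, h3, b', h6, h5⟩
  bwd := by
    rintro a b b1 ⟨b', h1, h2⟩ hs
    cases h1
    obtain ⟨a', b', h3, h4, h5⟩ := h.bwd a b b1 h2 hs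
    obtain ⟨n, h7, h6⟩ := dtn_of_dt (ν := ν) (fun x y hs => h.dec x y hs.1 hs.2.1) h4
    exact ⟨a', n, h3, ⟨b', h6, h5⟩, h7.trans (h.bd _)⟩
  nfin := by
    rintro n a b ⟨b', h1, h2⟩ hG
    cases h1 with
    | head hs _ => exact absurd (h.gm b hG) hs.1
  nxt := by
    rintro n a b ⟨b', h1, h2⟩
    cases h1 with
    | head hs _ => exact ⟨_, hs.2.1⟩
  det := by
    rintro n a b b1 ⟨b', h1, h2⟩ hs
    cases h1 with
    | head hs' h3 =>
      have := hs'.2.2 b1 hs
      subst this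
      exact ⟨n, le_rfl, b', h3, h2⟩

theorem BSim.start (h : BSim r U F s V G P Mn ν b0) {a : A} {b : B} (hP : P a b) :
    ∃ b', DTn s Mn 0 b b' ∧ P a b' := ⟨b, .refl, hP⟩

end Pool.Agent.V8H47.ALT
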