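import Pool.Agent.V8H47.ALT.Sim
import Pool.Agent.V8H47.MH.Content

/-!
# Thick store contents: alternating automata
-/

namespace Pool.Agent.V8H47.ALT

open Pool.Agent.V8H47.MH Relation

variable {α H Γ Δ : Type} (M : APDA α H Δ) (u : List Γ) (N : ℕ) (e : Δ × Bool → List Γ)

/-- universal states -/
def lab : TQ M.Q Δ Γ → Prop
  | .pre _ => False
  | .run q _ => q ∈ M.U
  | .psh q _ _ => q ∈ M.U
  | .pp q _ => q ∈ M.U

/-- main states -/
def isRun {Q : Type} : TQ Q Δ Γ → Prop
  | .run _ _ => True
  | _ => False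

/-- length of the path to a main state -/
def mu {Q : Type} : TQ Q Δ Γ → ℕ
  | .pre l => l.length + 1
  | .run _ _ => 0
  | .psh _ l _ => l.length + 1
  | .pp _ l => N - l.length + 1

/-- The relation. -/
def TP (c : PCfg M.Q H Δ) (x : PCfg (TQ M.Q Δ Γ) H Γ) : Prop :=
  match x.q with
  | .pre l => c = M.start ∧ (x.pos = fun _ => 0) ∧ ∃ p, u = p ++ l ∧ x.st = p.reverse
  | .run _ _ => x = rep M.toPDA u e c
  | .psh q l d => c.q = q ∧ c.pos = x.pos ∧ ∃ d' p rest, e d' = p ++ l ∧
      flg c.st = d :: d' :: rest ∧ x.st = p.reverse ++ code u e rest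
  | .pp q l => c.q = q ∧ c.pos = x.pos ∧ ∃ d p rest, e d = p ++ l ∧
      flg c.st = d :: rest ∧ x.st = p.reverse ++ code u e rest

theorem tp_act (w : List α) (c : PCfg M.Q H Δ) (t : M.Q × (H → Dir) × Op Δ) :
    TP M u e ⟨t.1, fun h => (t.2.1 h).move w.length (c.pos h), t.2.2.apply c.st⟩
      ⟨(tAct M.toPDA e t.1 t.2.1 t.2.2 (flg c.st).head?).1,
        fun h => ((tAct M.toPDA e t.1 t.2.1 t.2.2 (flg c.st).head?).2.1 h).move w.length (c.pos h),
        (tAct M.toPDA e t.1 t.2.1 t.2.2 (flg c.st).head?).2.2.apply (code u e (flg c.st).tail)⟩ := by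
  obtain ⟨q', d, op⟩ := t
  obtain ⟨q0, pos0, st0⟩ := c
  cases op with
  | keep => exact rfl
  | push g' =>
    cases st0 with
    | nil => simp [TP, rep, tAct, flg, Op.apply]
    | cons g st0 =>
      simp only [flg, List.head?_cons, tAct]
      refine ⟨rfl, rfl, (g, decide (st0 = [])), [], flg st0, rfl, ?_, ?_⟩
      · simp [Op.apply, flg]
      · simp [Op.apply]
  | pop =>
    cases st0 with
    | nil => simp [TP, rep, tAct, flg, Op.apply]
    | cons g st0 =>
      cases st0 with
      | nil => simp [TP, rep, tAct, flg, Op.apply]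
      | cons g' st0 =>
        have e1 : decide (g' :: st0 = []) = false := by simp
        simp only [flg, List.head?_cons, e1, tAct]
        refine ⟨rfl, rfl, (g', decide (st0 = [])), e (g', decide (st0 = [])), flg st0,
          by simp, ?_, ?_⟩
        · simp [Op.apply, flg]
        · simp [Op.apply, code_cons]

theorem mu_tAct (B : ℕ) (hB : N ≤ B) (he : ∀ d, (e d).length = N) (q : M.Q) (d : H → Dir)
    (op : Op Δ) (x : Option (Δ × Bool)) : mu N (tAct M.toPDA e q d op x).1 ≤ B + 1 := by
  cases op with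
  | keep => exact Nat.zero_le _
  | push g =>
    cases x with
    | none => exact Nat.zero_le _
    | some x => simp only [tAct, mu, he]; omega
  | pop =>
    rcases x with _ | ⟨x, _ | _⟩
    · exact Nat.zero_le _
    · simp only [tAct, mu]; omega
    · exact Nat.zero_le _

theorem thick_sim (h0 : M.init ∉ M.U) (he : Function.Injective e) (hN : ∀ d, (e d).length = N)
    (B : ℕ) (hB : N ≤ B) (w : List α) :
    ASim (M.Step w) (fun c => c.q ∈ M.U) (fun c => c.q ∈ M.acc)
      (rstep (tStep M.toPDA N e) w) (fun x => lab M x.q)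
      (fun x => x.q ∈ {q | ∃ s ∈ M.acc, ∃ c, q = TQ.run s c})
      (TP M u e) (fun x => isRun x.q) (fun x => mu N x.q) (B + 1) where
  lab := by
    rintro c ⟨q, pos, st⟩ h
    cases q with
    | pre l =>
      obtain ⟨rfl, _⟩ := h
      simp only [lab, iff_false]
      exact h0
    | run q d =>
      simp only [TP, rep, PCfg.mk.injEq, TQ.run.injEq] at h
      simp only [lab]
      rw [h.1.1]
    | psh q l d =>
      obtain ⟨rfl, _⟩ := h
      exact Iff.rfl
    | pp q l =>
      obtain ⟨rfl, _⟩ := h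
      exact Iff.rfl
  fin := by
    rintro c ⟨q, pos, st⟩ h hm
    cases q with
    | run q d =>
      simp only [TP, rep, PCfg.mk.injEq, TQ.run.injEq] at h
      simp only [Set.mem_setOf_eq, TQ.run.injEq]
      rw [← h.1.1]
      constructor
      · intro h1
        exact ⟨_, h1, _, rfl, rfl⟩
      · rintro ⟨s, h1, _, rfl, _⟩
        exact h1
    | pre l => exact absurd hm (by simp [isRun])
    | psh q l d => exact absurd hm (by simp [isRun])
    | pp q l => exact absurd hm (by simp [isRun])
  fwd := by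
    rintro c ⟨q, pos, st⟩ c' h hm ⟨t, ht, rfl⟩
    cases q with
    | run q d =>
      simp only [TP, rep, PCfg.mk.injEq, TQ.run.injEq] at h
      obtain ⟨⟨rfl, rfl⟩, rfl, rfl⟩ := h
      refine ⟨_, ⟨_, ⟨t, ?_, rfl⟩, rfl⟩, tp_act M u e w c t⟩
      rw [flg_head]
      exact ht
    | pre l => exact absurd hm (by simp [isRun])
    | psh q l d => exact absurd hm (by simp [isRun])
    | pp q l => exact absurd hm (by simp [isRun])
  bwd := by
    rintro c ⟨q, pos, st⟩ x' h hm ⟨y, hy, rfl⟩
    cases q with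
    | run q d =>
      simp only [TP, rep, PCfg.mk.injEq, TQ.run.injEq] at h
      obtain ⟨⟨rfl, rfl⟩, rfl, rfl⟩ := h
      obtain ⟨t, ht, rfl⟩ := hy
      rw [flg_head] at ht
      exact ⟨⟨_, ⟨t, ht, rfl⟩, tp_act M u e w c t⟩, mu_tAct M N e B hB hN _ _ _ _⟩
    | pre l => exact absurd hm (by simp [isRun])
    | psh q l d => exact absurd hm (by simp [isRun])
    | pp q l => exact absurd hm (by simp [isRun])
  nfin := by
    rintro c ⟨q, pos, st⟩ h hm ⟨s, _, d, h1⟩
    simp only at h1
    subst h1
    exact hm trivial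
  nxt := by
    rintro c ⟨q, pos, st⟩ h hm
    cases q with
    | run q d => exact absurd trivial hm
    | pre l =>
      cases l with
      | nil => exact ⟨_, (.run M.init none, fun _ => Dir.S, Op.keep), by simp only [tStep]; rfl, rfl⟩
      | cons a l => exact ⟨_, (.pre l, fun _ => Dir.S, Op.push a), by simp only [tStep]; rfl, rfl⟩
    | psh q l d =>
      cases l with
      | nil => exact ⟨_, (.run q (some d), fun _ => Dir.S, Op.keep), by simp only [tStep]; rfl, rfl⟩
      | cons a l => exact ⟨_, (.psh q l d, fun _ => Dir.S, Op.push a), by simp only [tStep]; rfl, rfl⟩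
    | pp q l =>
      obtain ⟨h1, h2, d, p, rest, h3, h4, h5⟩ := h
      simp only at h5
      subst h5
      have hlen : p.length + l.length = N := by rw [← hN d, h3]; simp
      rcases List.eq_nil_or_concat p with rfl | ⟨p', b, rfl⟩
      · refine ⟨_, (.run q (some d), fun _ => Dir.S, Op.keep), Or.inr ⟨?_, d, by simpa using h3, rfl⟩,
          rfl⟩
        simp only [List.length_nil] at hlen; omega
      · refine ⟨_, (.pp q (b :: l), fun _ => Dir.S, Op.pop), Or.inl ⟨?_, b, ?_, rfl⟩, rfl⟩
        · simp only [List.concat_eq_append, List.length_append, List.length_cons,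
            List.length_nil] at hlen
          omega
        · simp
  det := by
    rintro c ⟨xq, pos, st⟩ x' h hm ⟨t, ht, rfl⟩
    simp only at ht
    cases xq with
    | run q d => exact absurd trivial hm
    | pre l =>
      obtain ⟨h1, h1', p, h2, h3⟩ := h
      simp only at h1' h3
      subst h1 h1' h3
      cases l with
      | nil =>
        rw [tStep] at ht; rw [ht]
        refine ⟨?_, by simp [mu]⟩
        simp only [TP, rep, PDA.start, flg, List.head?_nil, List.tail_nil, code, List.flatMap_nil,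
          List.nil_append, Op.apply, Dir.move]
        rw [h2, List.append_nil]
      | cons a l =>
        rw [tStep] at ht; rw [ht]
        exact ⟨⟨rfl, rfl, p ++ [a], by simp [h2], by simp [Op.apply]⟩, by simp [mu]⟩
    | psh q l d =>
      obtain ⟨h1, h2, d', p, rest, h3, h4, h5⟩ := h
      simp only at h2 h5
      subst h2 h5
      cases l with
      | nil =>
        rw [tStep] at ht; rw [ht]
        refine ⟨?_, by simp [mu]⟩
        simp only [TP, rep, h1, h4, List.head?_cons, List.tail_cons, code_cons, Op.apply, Dir.move]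
        rw [h3, List.append_nil]
      | cons a l =>
        rw [tStep] at ht; rw [ht]
        exact ⟨⟨h1, rfl, d', p ++ [a], rest, by simp [h3], h4, by simp [Op.apply]⟩, by simp [mu]⟩
    | pp q l =>
      obtain ⟨h1, h2, d, p, rest, h3, h4, h5⟩ := h
      simp only at h2 h5
      subst h2 h5
      have hlen : p.length + l.length = N := by rw [← hN d, h3]; simp
      rcases ht with ⟨hl, a, ha, rfl⟩ | ⟨hl, d', hd', rfl⟩
      · rcases List.eq_nil_or_concat p with rfl | ⟨p', b, rfl⟩
        · simp only [List.length_nil] at hlen; omega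
        · simp only [List.concat_eq_append, List.reverse_append, List.reverse_cons,
            List.reverse_nil, List.nil_append, List.cons_append, List.head?_cons,
            Option.some.injEq] at ha
          subst ha
          refine ⟨⟨h1, rfl, d, p', rest, by simp [h3], h4, by simp [Op.apply]⟩, ?_⟩
          simp only [mu, List.length_cons]; omega
      · have : p = [] := by
          apply List.eq_nil_of_length_eq_zero; omega
        subst this
        simp only [List.nil_append] at h3
        have : d' = d := he (hd'.trans h3.symm)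
        subst this
        refine ⟨?_, by simp [mu]⟩
        simp [TP, rep, h1, h4, Op.apply, Dir.move]

/-! ### Restriction to finitely many states -/

section restr
variable {Q : Type} {F : Set Q} {hF : F.Finite} {init : Q} {hi : init ∈ F} {acc : Set Q}
  {step : Q → (H → Sym α) → Option Γ → Set (Q × (H → Dir) × Op Γ)}

theorem restr_sim (hcl : ∀ q ∈ F, ∀ a g, ∀ t ∈ step q a g, t.1 ∈ F) (V : Set Q) (w : List α) :
    ASim (rstep step w) (fun x => x.q ∈ V) (fun x => x.q ∈ acc)
      ((restr F hF init hi acc step).Step w) (fun x => x.q.1 ∈ V)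
      (fun x => x.q ∈ (restr F hF init hi acc step).acc)
      (fun x y => x = ⟨y.q.1, y.pos, y.st⟩) (fun _ => True) (fun _ => 0) 0 := by
  refine bisim _ ?_ ?_ ?_ ?_
  · rintro x y rfl
    exact Iff.rfl
  · rintro x y rfl
    exact Iff.rfl
  · rintro x ⟨⟨q, hq⟩, pos, st⟩ x' rfl ⟨t, ht, rfl⟩
    exact ⟨_, ⟨(⟨t.1, hcl _ hq _ _ t ht⟩, t.2), ht, rfl⟩, rfl⟩
  · rintro x ⟨⟨q, hq⟩, pos, st⟩ x' rfl ⟨⟨⟨q', hq'⟩, t⟩, ht, rfl⟩
    exact ⟨_, ⟨(q', t), ht, rfl⟩, rfl⟩

end restr

/-- **Thick contents.** -/
theorem thick_alt [Finite Δ] [Finite Γ] {k : ℕ} (hS : M.Sig k) {R : Set (List Γ)}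
    (hth : Thick R) :
    ∃ M' : APDA α H Γ, M'.Sig k ∧ M'.ContentsIn R ∧ M'.altLang = M.altLang := by
  obtain ⟨u, N, e, he, hN, hR⟩ := exists_code (D := Δ × Bool) hth
  obtain ⟨h0, ex, hex⟩ := hS
  have := M.finQ
  set B := max u.length N with hB
  have hi : (TQ.pre u : TQ M.Q Δ Γ) ∈ {q : TQ M.Q Δ Γ | q.len ≤ B} :=
    show u.length ≤ max u.length N from le_max_left _ _
  have hcl : ∀ q ∈ {q : TQ M.Q Δ Γ | q.len ≤ B}, ∀ (a : H → Sym α) g,
      ∀ t ∈ tStep M.toPDA N e q a g, t.1 ∈ {q : TQ M.Q Δ Γ | q.len ≤ B} :=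
    fun q hq a g t ht => closed_tStep M.toPDA N e B (le_max_right _ _) hN q hq a g t ht
  let M' : PDA α H Γ := restr {q : TQ M.Q Δ Γ | q.len ≤ B} (TQ.finite B) (TQ.pre u) hi
    {q | ∃ s ∈ M.acc, ∃ c, q = TQ.run s c} (tStep M.toPDA N e)
  let M'' : APDA α H Γ := { M' with U := {q : M'.Q | lab M q.1} }
  have hinv : ∀ w (x : PCfg (TQ M.Q Δ Γ) H Γ),
      ReflTransGen (rstep (tStep M.toPDA N e) w) ⟨.pre u, fun _ => 0, []⟩ x →
        TInv M.toPDA u e w x := by
    intro w x hx
    induction hx with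
    | refl => exact ⟨rfl, [], rfl, rfl⟩
    | tail _ hs ih => exact tInv_step M.toPDA u N e he hN w _ _ ih hs
  have h1 := fun w => thick_sim M u N e h0 he hN B (le_max_right _ _) w
  have h2 := fun w => restr_sim (H := H) (Γ := Γ) (hF := TQ.finite B) (hi := hi)
    (acc := {q | ∃ s ∈ M.acc, ∃ c, q = TQ.run s c}) hcl {q | lab M q} w
  have hP : TP M u e M.start ⟨.pre u, fun _ => 0, []⟩ := ⟨rfl, rfl, [], rfl, rfl⟩
  have hμ : mu N (TQ.pre u : TQ M.Q Δ Γ) ≤ B + 1 := by
    simp only [mu, hB]; omega
  obtain ⟨e', he'⟩ := pow_time (B + 1) ex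
  refine ⟨M'', ⟨id, e', ?_⟩, ?_, ?_⟩
  · intro w t j c hc
    obtain ⟨t1, x1, h3, _, h4⟩ := (h2 w).run (a₀ := ⟨.pre u, fun _ => 0, []⟩) rfl le_rfl hc
    obtain ⟨t2, x2, h5, _, h6⟩ := (h1 w).run hP hμ h3
    have h7 := hex w t2 j x2 h5
    have h8 := he' (w.length + 2) (by omega)
    have h9 : (B + 1 + 1) * t2 ≤ (B + 1 + 1) * (w.length + 2) ^ ex := Nat.mul_le_mul_left _ h7.1
    exact ⟨by omega, h7.2⟩
  · intro w c hc
    obtain ⟨L, hL⟩ := tInv_content M.toPDA u e w _ (hinv w _ (restr_to hc))
    simp only at hL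
    have h2 : (code u e L).reverse = u ++ L.reverse.flatMap e := by
      clear hL
      induction L with
      | nil => simp [code]
      | cons d L ih =>
        rw [code_cons, List.reverse_append, ih]
        simp
    refine hR L.reverse _ ?_
    rw [← h2]
    exact List.reverse_prefix.2 hL
  · ext w
    exact (((h1 w).iff_acc hP).trans ((h2 w).iff_acc rfl)).symm

end Pool.Agent.V8H47.ALT
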