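import Pool.Agent.V8H47.ALT.Thin
import Pool.Agent.V8H47.ALT.Thick

/-!
# The dichotomy for the store contents of alternating multihead pushdown automata
-/

namespace Pool.Agent.V8H47.ALT

open Pool.Agent.V8H47.MH

/-- **The dichotomy for store contents.** -/
theorem alt_dichotomy {Γ : Type} [Finite Γ] {R : Language Γ} (hreg : R.IsRegular)
    (h0 : [] ∈ R) :
    (PolyGrowth (R : Set (List Γ)) → ∀ (k : ℕ) (α : Type),
      sigPDAIn (R : Set (List Γ)) k α = sigFA k α) ∧
    (¬ PolyGrowth (R : Set (List Γ)) → ∀ (k : ℕ) (α : Type),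
      sigPDAIn (R : Set (List Γ)) k α = sigPDA k α) := by
  obtain ⟨σ, _, A, rfl⟩ := hreg
  have hst : A.start ∈ A.accept := h0
  constructor
  · intro hp k α
    have hth : ¬ Thick (A.accepts : Set (List Γ)) := fun h => not_polyGrowth_of_thick h hp
    apply Set.Subset.antisymm
    · rintro L ⟨m, M, h1, h2, rfl⟩
      obtain ⟨m', M', h3, h4⟩ := thin_alt (thinA_of_not_thick hst hth) M h1 h2
      exact ⟨m', M', h3, h4⟩
    · rintro L ⟨m, M, h1, rfl⟩
      exact ⟨m, M.toAPDA Γ, AFA.sig_toAPDA Γ M h1, AFA.contents_toAPDA h0 M,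
        AFA.altLang_toAPDA Γ M⟩
  · intro hp k α
    have hth : Thick (A.accepts : Set (List Γ)) := by
      by_contra hcon
      exact hp (polyGrowth_of_thin (thinA_of_not_thick hst hcon))
    apply Set.Subset.antisymm
    · rintro L ⟨m, M, h1, _, rfl⟩
      exact ⟨m, Γ, inferInstance, M, h1, rfl⟩
    · rintro L ⟨m, Δ, _, M, h1, rfl⟩
      obtain ⟨M', h2, h3, h4⟩ := thick_alt M h1 hth
      exact ⟨m, M', h2, h3, h4⟩

end Pool.Agent.V8H47.ALT
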