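import Pool.Agent.V8H47.ALT.Sim
import Pool.Agent.V8H47.MH.Content

/-!
# Thin store contents: alternating automata
-/

namespace Pool.Agent.V8H47.ALT

open Pool.Agent.V8H47.MH Relation

variable {α H Γ σ : Type}

theorem Run.reach {X : Type} {r : X → X → Prop} {U : X → Prop} {x₀ x : X} {t j : ℕ}
    (h : Run r U x₀ t j x) : ReflTransGen r x₀ x := by
  induction h with
  | start => exact .refl
  | same _ h _ ih => exact ih.tail h
  | alt _ h _ ih => exact ih.tail h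

theorem Run.next {X : Type} {r : X → X → Prop} {U : X → Prop} {x₀ x y : X} {t j : ℕ}
    (h : Run r U x₀ t j x) (hr : r x y) : ∃ j', Run r U x₀ (t + 1) j' y := by
  by_cases hu : U x ↔ U y
  · exact ⟨j, .same h hr hu⟩
  · exact ⟨j + 1, .alt h hr hu⟩

theorem run_len {M : PDA α H Γ} {U : PCfg M.Q H Γ → Prop} {w : List α} {t j : ℕ}
    {c : PCfg M.Q H Γ} (h : Run (M.Step w) U M.start t j c) : c.st.length ≤ t := by
  have key : ∀ c c' : PCfg M.Q H Γ, M.Step w c c' → c'.st.length ≤ c.st.length + 1 := by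
    rintro c c' ⟨t, _, rfl⟩
    cases h : t.2.2 with
    | keep => simp [Op.apply]
    | push g => simp [Op.apply]
    | pop => simp only [Op.apply, List.length_tail]; omega
  induction h with
  | start => exact Nat.zero_le _
  | same _ h _ ih => have := key _ _ h; omega
  | alt _ h _ ih => have := key _ _ h; omega

/-! ### Renaming the heads -/

/-- Renaming the heads. -/
def AFA.reindex {H' : Type} (M : AFA α H) (e : H ≃ H') : AFA α H' where
  toFA := M.toFA.reindex e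
  U := M.U

theorem AFA.reindex_sim {H' : Type} (M : AFA α H) (e : H ≃ H') (w : List α) :
    ASim (M.Step w) (fun c => c.q ∈ M.U) (fun c => c.q ∈ M.acc)
      ((M.reindex e).Step w) (fun c => c.q ∈ (M.reindex e).U) (fun c => c.q ∈ (M.reindex e).acc)
      (fun b a => a.q = b.q ∧ a.pos = b.pos ∘ e.symm) (fun _ => True) (fun _ => 0) 0 := by
  refine bisim _ ?_ ?_ ?_ ?_
  · rintro a b ⟨h1, _⟩
    rw [h1]; rfl
  · rintro a b ⟨h1, _⟩
    rw [h1]; rfl
  · rintro ⟨q, p⟩ ⟨q', p'⟩ a' ⟨h1, h2⟩ ⟨t, ht, rfl⟩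
    simp only at h1 h2
    subst h1 h2
    refine ⟨⟨t.1, fun h => (t.2 (e.symm h)).move w.length (p (e.symm h))⟩,
      ⟨(t.1, t.2 ∘ e.symm), ⟨t, ?_, rfl⟩, rfl⟩, rfl, ?_⟩
    · convert ht using 2
      funext h
      simp
    · funext h
      simp
  · rintro ⟨q, p⟩ ⟨q', p'⟩ a' ⟨h1, h2⟩ ⟨t, ⟨y, hy, rfl⟩, rfl⟩
    simp only at h1 h2
    subst h1 h2
    refine ⟨⟨y.1, fun h => (y.2 h).move w.length (p h)⟩, ⟨y, ?_, rfl⟩, rfl, ?_⟩
    · convert hy using 2
      funext h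
      simp
    · funext h
      simp

theorem AFA.reindex_start {H' : Type} (M : AFA α H) (e : H ≃ H') :
    (M.reindex e).start.q = M.start.q ∧ (M.reindex e).start.pos = M.start.pos ∘ e.symm :=
  ⟨rfl, rfl⟩

theorem AFA.altLang_reindex {H' : Type} (M : AFA α H) (e : H ≃ H') :
    (M.reindex e).altLang = M.altLang := by
  ext w
  exact ((M.reindex_sim e w).iff_acc (M.reindex_start e)).symm

theorem AFA.sig_reindex {H' : Type} (M : AFA α H) (e : H ≃ H') {k : ℕ} (h : M.Sig k) :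
    (M.reindex e).Sig k := by
  obtain ⟨h0, c, hc⟩ := h
  refine ⟨h0, c, fun w t j x hx => ?_⟩
  obtain ⟨t', a, h1, _, h3⟩ := (M.reindex_sim e w).run (M.reindex_start e) le_rfl hx
  have := hc w t' j a h1
  exact ⟨by omega, this.2⟩

/-! ### The simulation -/

/-- the alternating finite automaton for an alternating pushdown automaton with thin contents -/
noncomputable def thinA [Finite σ] [Finite Γ] (A : DFA Γ σ) (M : APDA α H Γ) (c : ℕ) :
    AFA α (H ⊕ Fin (Nat.card σ) × Fin c) where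
  toFA := (thinCM A M.toPDA).toFA c
  U := {q | q.1.1 ∈ M.U}

section
variable [Finite σ] [Finite Γ] (A : DFA Γ σ) (M : APDA α H Γ) (e : ℕ) (w : List α)

/-- The simulation relation. -/
def ThinP (c : PCfg M.Q H Γ)
    (y : FCfg (thinA A M (e + 1)).Q (H ⊕ Fin (Nat.card σ) × Fin (e + 1))) : Prop :=
  (∃ t j, Run (M.Step w) (fun c => c.q ∈ M.U) M.start t j c) ∧
    ∃ x, ThinRel A M.toPDA w c x ∧ y = (thinCM A M.toPDA).enc (e + 1) w x

variable {A M e w}

theorem pow_lt_succ (w : List α) (e : ℕ) : (w.length + 2) ^ e < (w.length + 2) ^ (e + 1) :=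
  Nat.pow_lt_pow_right (by omega) (by omega)

theorem thinA_sim (hT : ThinA A) (hG : ∀ c, M.Reach w c → Good A c.st)
    (hE : ∀ (t j : ℕ) (c : PCfg M.Q H Γ),
      Run (M.Step w) (fun c => c.q ∈ M.U) M.start t j c → t ≤ (w.length + 2) ^ e) :
    ASim (M.Step w) (fun c => c.q ∈ M.U) (fun c => c.q ∈ M.acc)
      ((thinA A M (e + 1)).Step w) (fun c => c.q ∈ (thinA A M (e + 1)).U)
      (fun c => c.q ∈ (thinA A M (e + 1)).acc) (ThinP A M e w) (fun _ => True) (fun _ => 0) 0 := by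
  have hlt := pow_lt_succ w e
  refine bisim _ ?_ ?_ ?_ ?_
  · rintro c y ⟨_, x, hx, rfl⟩
    have h1 := hx.2.1
    change _ ↔ x.q.1 ∈ M.U
    rw [h1]
  · rintro c y ⟨_, x, hx, rfl⟩
    have h1 := hx.2.1
    change _ ↔ x.q.1 ∈ M.acc
    rw [h1]
  · rintro c y c' ⟨⟨t, j, hr⟩, x, hx, rfl⟩ hs
    obtain ⟨j', hr'⟩ := hr.next hs
    have hb : ∀ i, x.cnt i < (w.length + 2) ^ (e + 1) := by
      intro i
      rw [hx.2.2.2.2]
      have := cnts_le (A := A) c.st i
      have h2 := run_len hr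
      have h3 := hE _ _ _ hr
      simp only; omega
    obtain ⟨x', h1, h2⟩ := thin_sim (N := (w.length + 2) ^ (e + 1)) hT hG hx hs
      (by have := run_len hr'; have := hE _ _ _ hr'; omega)
    exact ⟨_, ((thinCM A M.toPDA).step_enc (e + 1) w x hb _).2 ⟨x', h1, rfl⟩, ⟨_, _, hr'⟩, x', h2,
      rfl⟩
  · rintro c y y' ⟨⟨t, j, hr⟩, x, hx, rfl⟩ hs
    have hb : ∀ i, x.cnt i < (w.length + 2) ^ (e + 1) := by
      intro i
      rw [hx.2.2.2.2]
      have := cnts_le (A := A) c.st i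
      have h2 := run_len hr
      have h3 := hE _ _ _ hr
      simp only; omega
    obtain ⟨x', h1, rfl⟩ := ((thinCM A M.toPDA).step_enc (e + 1) w x hb _).1 hs
    obtain ⟨c', h2, h3⟩ := thin_sim' hT hG hx h1
    obtain ⟨j', hr'⟩ := hr.next h2
    exact ⟨c', h2, ⟨_, _, hr'⟩, x', h3, rfl⟩

theorem thinA_start : ThinP A M e w M.start (thinA A M (e + 1)).start := by
  refine ⟨⟨0, 0, .start⟩, (thinCM A M.toPDA).start, ⟨⟨0, rfl⟩, rfl, rfl, rfl, ?_⟩, ?_⟩
  · funext j
    have := cnts_le (A := A) (M.start : PCfg M.Q H Γ).st j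
    simp only [PDA.start, List.length_nil, Nat.le_zero] at this
    exact this.symm
  · have hs : ((thinCM A M.toPDA).toFA (e + 1)).start =
        (thinCM A M.toPDA).enc (e + 1) w (thinCM A M.toPDA).start := by
      unfold CM.enc FA.start CM.start
      simp only [FCfg.mk.injEq]
      constructor
      · change ((thinCM A M.toPDA).init, fun _ _ => true) = _
        simp only [dirs_zero]
      · funext h
        cases h with
        | inl h => rfl
        | inr z => exact (tup_zero _ _ _).symm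
    exact hs

end

/-- **Thin contents.** -/
theorem thin_alt [Finite σ] [Finite Γ] {A : DFA Γ σ} (hT : ThinA A) {k m : ℕ}
    (M : APDA α (Fin m) Γ) (hS : M.Sig k) (hM : M.ContentsIn (A.accepts : Set (List Γ))) :
    ∃ (m' : ℕ) (M' : AFA α (Fin m')), M'.Sig k ∧ M'.altLang = M.altLang := by
  obtain ⟨h0, e, he⟩ := hS
  have hsim := fun w => thinA_sim (e := e) hT (good_of_contentsIn hM w)
    (fun t j c h => (he w t j c h).1)
  obtain ⟨m', ⟨eq⟩⟩ := Finite.exists_equiv_fin (Fin m ⊕ Fin (Nat.card σ) × Fin (e + 1))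
  refine ⟨m', (thinA A M (e + 1)).reindex eq, AFA.sig_reindex _ _ ⟨h0, e, ?_⟩, ?_⟩
  · intro w t j x hx
    obtain ⟨t', a, h1, _, h3⟩ := (hsim w).run thinA_start le_rfl hx
    have := he w t' j a h1
    exact ⟨by omega, this.2⟩
  · rw [AFA.altLang_reindex]
    ext w
    exact ((hsim w).iff_acc thinA_start).symm

/-! ### Finite automata as pushdown automata -/

/-- An alternating finite automaton as a pushdown automaton that never uses its store. -/
def AFA.toAPDA (Γ : Type) (M : AFA α H) : APDA α H Γ where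
  toPDA := M.toFA.toPDA Γ
  U := M.U

theorem AFA.toAPDA_sim (Γ : Type) (M : AFA α H) (w : List α) :
    ASim (M.Step w) (fun c => c.q ∈ M.U) (fun c => c.q ∈ M.acc)
      ((M.toAPDA Γ).Step w) (fun c => c.q ∈ (M.toAPDA Γ).U) (fun c => c.q ∈ (M.toAPDA Γ).acc)
      (fun b a => a.q = b.q ∧ a.pos = b.pos) (fun _ => True) (fun _ => 0) 0 := by
  refine bisim _ ?_ ?_ ?_ ?_
  · rintro a b ⟨h1, _⟩
    rw [h1]; rfl
  · rintro a b ⟨h1, _⟩
    rw [h1]; rfl
  · rintro ⟨q, p⟩ ⟨q', p', st⟩ a' ⟨h1, h2⟩ ⟨t, ht, rfl⟩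
    simp only at h1 h2
    subst h1 h2
    exact ⟨_, ⟨(t.1, t.2, Op.keep), ⟨t, ht, rfl⟩, rfl⟩, rfl, rfl⟩
  · rintro ⟨q, p⟩ ⟨q', p', st⟩ a' ⟨h1, h2⟩ ⟨t, ⟨y, hy, rfl⟩, rfl⟩
    simp only at h1 h2
    subst h1 h2
    exact ⟨⟨y.1, fun h => (y.2 h).move w.length (p' h)⟩, ⟨y, hy, rfl⟩, rfl, rfl⟩

theorem AFA.altLang_toAPDA (Γ : Type) (M : AFA α H) : (M.toAPDA Γ).altLang = M.altLang := by
  ext w
  exact ((M.toAPDA_sim Γ w).iff_acc
    (a := M.start) (b := (M.toAPDA Γ).start) ⟨rfl, rfl⟩).symm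

theorem AFA.sig_toAPDA (Γ : Type) (M : AFA α H) {k : ℕ} (h : M.Sig k) : (M.toAPDA Γ).Sig k := by
  obtain ⟨h0, c, hc⟩ := h
  refine ⟨h0, c, fun w t j x hx => ?_⟩
  obtain ⟨t', a, h1, _, h3⟩ := (M.toAPDA_sim Γ w).run
    (a₀ := M.start) (b₀ := (M.toAPDA Γ).start) ⟨rfl, rfl⟩ le_rfl hx
  have := hc w t' j a h1
  exact ⟨by omega, this.2⟩

theorem AFA.contents_toAPDA {R : Set (List Γ)} (h0 : [] ∈ R) (M : AFA α H) :
    (M.toAPDA Γ).ContentsIn R := fa_contents h0 M.toFA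

end Pool.Agent.V8H47.ALT
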