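import Pool.Agent.V8H47.MH.ContDefs

/-!
# Alternating multihead automata with bounded alternation and polynomial time
-/

namespace Pool.Agent.V8H47.ALT

open Pool.Agent.V8H47.MH

/-- Alternating acceptance. The steps are given by `r`, the universal configurations by `U` and
the accepting ones by `F`. A configuration is accepted if it belongs to `F`, or if it is not
universal and some successor is accepted, or if it is universal and all its successors are
accepted. (The least such property.) -/
inductive AltAcc {X : Type} (r : X → X → Prop) (U F : X → Prop) : X → Prop
  | acc {x : X} : F x → AltAcc r U F x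
  | ex {x y : X} : ¬ U x → r x y → AltAcc r U F y → AltAcc r U F x
  | all {x : X} : U x → (∀ y, r x y → AltAcc r U F y) → AltAcc r U F x

/-- `Run r U x₀ t j x`: some run of exactly `t` steps leads from `x₀` to `x`, and exactly `j` of its
steps go from a universal to a nonuniversal configuration or the other way round. -/
inductive Run {X : Type} (r : X → X → Prop) (U : X → Prop) (x₀ : X) : ℕ → ℕ → X → Prop
  | start : Run r U x₀ 0 0 x₀
  | same {t j : ℕ} {x y : X} : Run r U x₀ t j x → r x y → (U x ↔ U y) → Run r U x₀ (t + 1) j y
  | alt {t j : ℕ} {x y : X} : Run r U x₀ t j x → r x y → ¬ (U x ↔ U y) →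
      Run r U x₀ (t + 1) (j + 1) y

/-- An alternating two-way pushdown automaton with input alphabet `α`, pushdown alphabet `Γ` and
one input head for each element of `H`: a pushdown automaton with a set of universal states. -/
structure APDA (α H Γ : Type) extends PDA α H Γ where
  /-- the universal states -/
  U : Set Q

/-- An alternating two-way finite automaton with input alphabet `α` and one input head for each
element of `H`. -/
structure AFA (α H : Type) extends FA α H where
  /-- the universal states -/
  U : Set Q

/-- The language accepted by an alternating pushdown automaton. -/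
def APDA.altLang {α H Γ : Type} (M : APDA α H Γ) : Language α :=
  {w | AltAcc (M.Step w) (fun c => c.q ∈ M.U) (fun c => c.q ∈ M.acc) M.start}

/-- The language accepted by an alternating finite automaton. -/
def AFA.altLang {α H : Type} (M : AFA α H) : Language α :=
  {w | AltAcc (M.Step w) (fun c => c.q ∈ M.U) (fun c => c.q ∈ M.acc) M.start}

/-- The automaton starts in a nonuniversal state, all its runs have polynomial length, and no run
has `k` or more changes between universal and nonuniversal states. -/
def APDA.Sig {α H Γ : Type} (M : APDA α H Γ) (k : ℕ) : Prop :=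
  M.init ∉ M.U ∧ ∃ e : ℕ, ∀ (w : List α) (t j : ℕ) (c : PCfg M.Q H Γ),
    Run (M.Step w) (fun c => c.q ∈ M.U) M.start t j c → t ≤ (w.length + 2) ^ e ∧ j < k

/-- The automaton starts in a nonuniversal state, all its runs have polynomial length, and no run
has `k` or more changes between universal and nonuniversal states. -/
def AFA.Sig {α H : Type} (M : AFA α H) (k : ℕ) : Prop :=
  M.init ∉ M.U ∧ ∃ e : ℕ, ∀ (w : List α) (t j : ℕ) (c : FCfg M.Q H),
    Run (M.Step w) (fun c => c.q ∈ M.U) M.start t j c → t ≤ (w.length + 2) ^ e ∧ j < k

/-- Level `k` of the alternation hierarchy of polynomial time two-way multihead pushdown automata: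
the first block of a run is existential, and there are at most `k` blocks. -/
def sigPDA (k : ℕ) (α : Type) : Set (Language α) :=
  {L | ∃ (m : ℕ) (Γ : Type) (_ : Finite Γ) (M : APDA α (Fin m) Γ), M.Sig k ∧ M.altLang = L}

/-- The same with pushdown alphabet `Γ` and store contents in `R`. -/
def sigPDAIn {Γ : Type} (R : Set (List Γ)) (k : ℕ) (α : Type) : Set (Language α) :=
  {L | ∃ (m : ℕ) (M : APDA α (Fin m) Γ), M.Sig k ∧ M.ContentsIn R ∧ M.altLang = L}

/-- Level `k` of the alternation hierarchy of polynomial time two-way multihead finite automata. -/
def sigFA (k : ℕ) (α : Type) : Set (Language α) :=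
  {L | ∃ (m : ℕ) (M : AFA α (Fin m)), M.Sig k ∧ M.altLang = L}

end Pool.Agent.V8H47.ALT
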