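import Pool.Agent.V8H47.ALT.TSim
import Pool.Agent.V8H47.OW.Time

/-!
# Alternating pushdown automata with oblivious heads
-/

namespace Pool.Agent.V8H47.ALT

open Pool.Agent.V8H47.MH Pool.Agent.V8H47.OW

variable {α Γ : Type} {k : ℕ}

/-! ### From schedule machines to pushdown automata -/

section sm
variable (N : SM α k Γ)

/-- the steps of a schedule machine -/
def smStep (w : List α) (x y : N.S × ℕ × List Γ) : Prop :=
  (∃ j : Fin (k + 1), (y.1, Act.mir j) ∈
      N.act x.1 (syms w k x.2.1) (dirs k (w.length + 2) x.2.1) x.2.2.head? ∧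
    y.2.1 = mirror (w.length + 2) j x.2.1 ∧ y.2.2 = x.2.2) ∨
  (∃ o, (y.1, Act.op o) ∈
      N.act x.1 (syms w k x.2.1) (dirs k (w.length + 2) x.2.1) x.2.2.head? ∧
    y.2.1 = mirror (w.length + 2) k x.2.1 ∧ y.2.2 = o.apply x.2.2)

/-- the state of the schedule machine -/
def ctlS {S : Type} : SM.Ctl S k → S
  | .main s => s
  | .push _ s => s
  | .pushExt s => s
  | .ext s => s

/-- The invariant. -/
def OI (r : ℕ) (a : N.S × ℕ × List Γ) (t : ℕ) (st : List (Option Γ)) : SM.Ctl N.S k → Prop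
  | .main s => s = a.1 ∧ ∃ c, st = SM.store c a.2.2 ∧ t + c = a.2.1
  | .push j s => s = a.1 ∧ ∃ t₁ c, t₁ + c = t ∧ t / r ^ (j : ℕ) = t₁ / r ^ (j : ℕ) ∧
      st = SM.store c a.2.2 ∧ a.2.1 = mirror r j t₁
  | .pushExt s => s = a.1 ∧ ∃ t₁ c, t₁ + 1 + c = t ∧ t / r ^ k = t₁ / r ^ k ∧
      st = SM.store c a.2.2 ∧ a.2.1 = mirror r k t₁
  | .ext s => s = a.1 ∧ ∃ c, st = SM.store c a.2.2 ∧ t + c + 1 = a.2.1

/-- The relation. -/
def OP (w : List α) (n : ℕ) (a : N.S × ℕ × List Γ) (x : PCfg N.toPDA.Q (Fin k) (Option Γ)) : Prop :=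
  ∃ t c st, x = N.cfg w t c st ∧ t + n = a.2.1 ∧ OI N (w.length + 2) a t st c

variable {N}

theorem lt_mirror {r j t t₁ : ℕ} (hr : 0 < r) (h : t / r ^ j = t₁ / r ^ j) :
    t < mirror r j t₁ := by
  have hp : 0 < r ^ j := Nat.pow_pos hr
  unfold mirror
  rw [← h]
  have e1 := Nat.div_add_mod t (r ^ j)
  have e2 := Nat.mod_lt t hp
  have e3 : (t / r ^ j + 1) * r ^ j = r ^ j * (t / r ^ j) + r ^ j := by ring
  rw [e3]
  omega

theorem cfg_inj {w : List α} {t : ℕ} {c c' : SM.Ctl N.S k} {st st' : List (Option Γ)}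
    (h : N.cfg w t c st = N.cfg w t c' st') : c = c' ∧ st = st' := by
  unfold SM.cfg at h
  simp only [PCfg.mk.injEq] at h
  exact ⟨(Prod.mk.inj h.1).2, h.2.2⟩

/-- what the invariant says in the end -/
theorem OI.zero {w : List α} {a : N.S × ℕ × List Γ} {t : ℕ} {st : List (Option Γ)}
    {c : SM.Ctl N.S k} (h : OI N (w.length + 2) a t st c) (ht : t = a.2.1) :
    c = .main a.1 ∧ st = SM.store 0 a.2.2 := by
  have hr : 0 < w.length + 2 := by omega
  cases c with
  | main s =>
    obtain ⟨rfl, c, rfl, h1⟩ := h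
    have : c = 0 := by omega
    subst this
    exact ⟨rfl, rfl⟩
  | push j s =>
    obtain ⟨_, t₁, c, h1, h2, _, h3⟩ := h
    have := lt_mirror hr h2
    omega
  | pushExt s =>
    obtain ⟨_, t₁, c, h1, h2, _, h3⟩ := h
    have := lt_mirror hr h2
    omega
  | ext s =>
    obtain ⟨_, c, _, h1⟩ := h
    omega

theorem OI.next {w : List α} {a : N.S × ℕ × List Γ} {t : ℕ} {st : List (Option Γ)}
    {c : SM.Ctl N.S k} (h : OI N (w.length + 2) a t st c) (ht : t < a.2.1)
    (y : SM.Ctl N.S k × Op (Option Γ))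
    (hy : y ∈ N.ctl (dirs k (w.length + 2) t) (syms w k t) st.head? c) :
    OI N (w.length + 2) a (t + 1) (y.2.apply st) y.1 := by
  have hr : 0 < w.length + 2 := by omega
  cases c with
  | main s =>
    obtain ⟨rfl, c, rfl, h1⟩ := h
    cases c with
    | zero => omega
    | succ c =>
      simp only [SM.ctl, SM.head_store_succ, if_true, Set.mem_singleton_iff] at hy
      subst hy
      exact ⟨rfl, c, by simp [Op.apply, SM.store_succ], by omega⟩
  | push j s =>
    obtain ⟨rfl, t₀, c, h1, h2, rfl, h3⟩ := h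
    by_cases hl : SM.lastIn (dirs k (w.length + 2) t) (syms w k t) j
    · simp only [SM.ctl, hl, if_true, Set.mem_singleton_iff] at hy
      subst hy
      have hm := (SM.lastIn_iff (k := k) w t j (by omega)).1 hl
      refine ⟨rfl, c, rfl, ?_⟩
      rw [SM.mirror_eq hr h1 h2 hm] at h3
      omega
    · simp only [SM.ctl, hl, if_false, Set.mem_singleton_iff] at hy
      subst hy
      have hm := (SM.lastIn_iff (k := k) w t j (by omega)).not.1 hl
      refine ⟨rfl, t₀, c + 1, by omega, ?_, ?_, h3⟩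
      · rw [SM.same_block hr hm, h2]
      · simp [Op.apply, SM.store_succ]
  | pushExt s =>
    obtain ⟨rfl, t₀, c, h1, h2, rfl, h3⟩ := h
    by_cases hl : SM.lastIn (dirs k (w.length + 2) t) (syms w k t) k
    · simp only [SM.ctl, hl, if_true, Set.mem_singleton_iff] at hy
      subst hy
      have hm := (SM.lastIn_iff (k := k) w t k le_rfl).1 hl
      refine ⟨rfl, c, rfl, ?_⟩
      have h1' : t₀ + (c + 1) = t := by omega
      rw [SM.mirror_eq hr h1' h2 hm] at h3
      omega
    · simp only [SM.ctl, hl, if_false, Set.mem_singleton_iff] at hy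
      subst hy
      have hm := (SM.lastIn_iff (k := k) w t k le_rfl).not.1 hl
      refine ⟨rfl, t₀, c + 1, by omega, ?_, ?_, h3⟩
      · rw [SM.same_block hr hm, h2]
      · simp [Op.apply, SM.store_succ]
  | ext s =>
    obtain ⟨rfl, c, rfl, h1⟩ := h
    cases c with
    | succ c =>
      simp only [SM.ctl, SM.head_store_succ, if_true, Set.mem_singleton_iff] at hy
      subst hy
      refine ⟨rfl, c, ?_, by omega⟩
      simp [Op.apply, SM.store_succ]
    | zero =>
      have hh := SM.head_store_zero a.2.2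
      simp only [SM.ctl, hh.1, if_false, Set.mem_singleton_iff] at hy
      subst hy
      exact ⟨rfl, 0, rfl, by omega⟩

/-- the action of the pushdown automaton for an action of the schedule machine -/
noncomputable def oact (w : List α) (t : ℕ) (s' : N.S) : Act k Γ → SM.Ctl N.S k × Op (Option Γ)
  | .mir j => open Classical in
      if SM.lastIn (dirs k (w.length + 2) t) (syms w k t) j then (.main s', Op.keep)
      else (.push j s', Op.push none)
  | .op o => open Classical in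
      if SM.lastIn (dirs k (w.length + 2) t) (syms w k t) k then (.main s', SM.liftOp o)
      else (.pushExt s', SM.liftOp o)

/-- the next configuration of the schedule machine -/
def onext (w : List α) (a : N.S × ℕ × List Γ) (s' : N.S) : Act k Γ → N.S × ℕ × List Γ
  | .mir j => (s', mirror (w.length + 2) j a.2.1, a.2.2)
  | .op o => (s', mirror (w.length + 2) k a.2.1, o.apply a.2.2)

theorem smStep_iff {w : List α} {a a' : N.S × ℕ × List Γ} :
    smStep N w a a' ↔ ∃ s' A, (s', A) ∈ N.act a.1 (syms w k a.2.1) (dirs k (w.length + 2) a.2.1)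
      a.2.2.head? ∧ a' = onext w a s' A := by
  obtain ⟨s1, t1, σ1⟩ := a'
  constructor
  · rintro (⟨j, h1, h2, h3⟩ | ⟨o, h1, h2, h3⟩)
    · simp only at h1 h2 h3
      exact ⟨s1, .mir j, h1, by simp [onext, h2, h3]⟩
    · simp only at h1 h2 h3
      exact ⟨s1, .op o, h1, by simp [onext, h2, h3]⟩
  · rintro ⟨s', A, h1, h2⟩
    cases A with
    | mir j =>
      simp only [onext, Prod.mk.injEq] at h2
      obtain ⟨rfl, rfl, rfl⟩ := h2
      exact Or.inl ⟨j, h1, rfl, rfl⟩
    | op o =>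
      simp only [onext, Prod.mk.injEq] at h2
      obtain ⟨rfl, rfl, rfl⟩ := h2
      exact Or.inr ⟨o, h1, rfl, rfl⟩

theorem mem_ctl_main {w : List α} {t : ℕ} {s : N.S} {σ : List Γ}
    {y : SM.Ctl N.S k × Op (Option Γ)} :
    y ∈ N.ctl (dirs k (w.length + 2) t) (syms w k t) (SM.store 0 σ).head? (.main s) ↔
      ∃ s' A, (s', A) ∈ N.act s (syms w k t) (dirs k (w.length + 2) t) σ.head? ∧
        y = oact w t s' A := by
  have hh := SM.head_store_zero σ
  simp only [SM.ctl, hh.1, if_false, hh.2, Set.mem_ofPred_eq]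
  constructor
  · rintro (⟨s', j, h1, rfl⟩ | ⟨s', o, h1, rfl⟩)
    · exact ⟨s', .mir j, h1, rfl⟩
    · exact ⟨s', .op o, h1, rfl⟩
  · rintro ⟨s', A, h1, rfl⟩
    cases A with
    | mir j => exact Or.inl ⟨s', j, h1, rfl⟩
    | op o => exact Or.inr ⟨s', o, h1, rfl⟩

theorem OI.act {w : List α} {a : N.S × ℕ × List Γ} (s' : N.S) (A : Act k Γ) :
    OI N (w.length + 2) (onext w a s' A) (a.2.1 + 1)
      ((oact w a.2.1 s' A).2.apply (SM.store 0 a.2.2)) (oact w a.2.1 s' A).1 ∧
    a.2.1 + 1 ≤ (onext w a s' A).2.1 ∧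
    (onext w a s' A).2.1 ≤ a.2.1 + 2 * (w.length + 2) ^ k := by
  have hr : 0 < w.length + 2 := by omega
  obtain ⟨s, t, σ⟩ := a
  cases A with
  | mir j =>
    refine ⟨?_, lt_mirror hr rfl, mirror_le hr (by omega)⟩
    by_cases hl : SM.lastIn (dirs k (w.length + 2) t) (syms w k t) j
    · simp only [oact, hl, if_true]
      have hm := (SM.lastIn_iff (k := k) w t j (by omega)).1 hl
      have := SM.mirror_eq (t₀ := t) (c := 0) hr rfl rfl hm
      exact ⟨rfl, 0, rfl, this.symm⟩
    · simp only [oact, hl, if_false]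
      have hm := (SM.lastIn_iff (k := k) w t j (by omega)).not.1 hl
      refine ⟨rfl, t, 1, rfl, SM.same_block hr hm, ?_, rfl⟩
      simp [onext, Op.apply, SM.store]
  | op o =>
    refine ⟨?_, lt_mirror hr rfl, mirror_le hr le_rfl⟩
    by_cases hl : SM.lastIn (dirs k (w.length + 2) t) (syms w k t) k
    · simp only [oact, hl, if_true]
      have hm := (SM.lastIn_iff (k := k) w t k le_rfl).1 hl
      have := SM.mirror_eq (t₀ := t) (c := 0) hr rfl rfl hm
      exact ⟨rfl, 0, SM.liftOp_apply o σ, this.symm⟩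
    · simp only [oact, hl, if_false]
      have hm := (SM.lastIn_iff (k := k) w t k le_rfl).not.1 hl
      exact ⟨rfl, t, 0, by omega, SM.same_block hr hm, SM.liftOp_apply o σ, rfl⟩

theorem OI.state {r : ℕ} {a : N.S × ℕ × List Γ} {t : ℕ} {st : List (Option Γ)}
    {c : SM.Ctl N.S k} (h : OI N r a t st c) : ctlS c = a.1 := by
  cases c <;> exact h.1

/-- a non-main configuration has a successor -/
theorem OI.exists_next {w : List α} {a : N.S × ℕ × List Γ} {t : ℕ} {st : List (Option Γ)}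
    {c : SM.Ctl N.S k} (h : OI N (w.length + 2) a t st c) (ht : t < a.2.1) :
    ∃ y, y ∈ N.ctl (dirs k (w.length + 2) t) (syms w k t) st.head? c := by
  cases c with
  | main s =>
    obtain ⟨rfl, c, rfl, h1⟩ := h
    cases c with
    | zero => omega
    | succ c => exact ⟨(.main a.1, Op.pop), by simp [SM.ctl, SM.head_store_succ]⟩
  | push j s =>
    by_cases hl : SM.lastIn (dirs k (w.length + 2) t) (syms w k t) j
    · exact ⟨(.main s, Op.keep), by simp [SM.ctl, hl]⟩
    · exact ⟨(.push j s, Op.push none), by simp [SM.ctl, hl]⟩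
  | pushExt s =>
    by_cases hl : SM.lastIn (dirs k (w.length + 2) t) (syms w k t) k
    · exact ⟨(.ext s, Op.keep), by simp [SM.ctl, hl]⟩
    · exact ⟨(.pushExt s, Op.push none), by simp [SM.ctl, hl]⟩
  | ext s =>
    by_cases hg : st.head? = some none
    · exact ⟨(.ext s, Op.pop), by simp [SM.ctl, hg]⟩
    · exact ⟨(.main s, Op.keep), by simp [SM.ctl, hg]⟩

theorem sm_sim (V : Set N.S) (w : List α) :
    TSim (smStep N w) (fun x => x.1 ∈ V) (fun x => x.1 ∈ N.acc)
      (N.toPDA.Step w) (fun x => ctlS x.q.2 ∈ V) (fun x => x.q ∈ N.toPDA.acc)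
      (OP N w) (2 * (w.length + 2) ^ k) where
  lab := by
    rintro n a x ⟨t, c, st, rfl, _, h⟩
    change _ ↔ ctlS c ∈ V
    rw [h.state]
  fin := by
    rintro a x ⟨t, c, st, rfl, h1, h⟩
    obtain ⟨rfl, _⟩ := h.zero (by omega)
    constructor
    · intro h2
      exact ⟨a.1, h2, rfl⟩
    · rintro ⟨s, h2, h3⟩
      change SM.Ctl.main a.1 = SM.Ctl.main s at h3
      simp only [SM.Ctl.main.injEq] at h3
      rw [h3]; exact h2
  fwd := by
    rintro a x a' ⟨t, c, st, rfl, h1, h⟩ hs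
    obtain ⟨s', A, hA, rfl⟩ := smStep_iff.1 hs
    obtain ⟨rfl, rfl⟩ := h.zero (by omega)
    rw [Nat.add_zero] at h1
    subst h1
    obtain ⟨h2, h3, _⟩ := OI.act (w := w) (a := a) s' A
    exact ⟨_, (onext w a s' A).2.1 - (a.2.1 + 1), (N.step_cfg w _ _ _ _).2
      ⟨_, mem_ctl_main.2 ⟨s', A, hA, rfl⟩, rfl⟩, _, _, _, rfl, by omega, h2⟩
  bwd := by
    rintro a x x' ⟨t, c, st, rfl, h1, h⟩ hs
    obtain ⟨rfl, rfl⟩ := h.zero (by omega)
    rw [Nat.add_zero] at h1
    subst h1
    obtain ⟨y, hy, rfl⟩ := (N.step_cfg w _ _ _ _).1 hs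
    obtain ⟨s', A, hA, rfl⟩ := mem_ctl_main.1 hy
    obtain ⟨h2, h3, h4⟩ := OI.act (w := w) (a := a) s' A
    exact ⟨onext w a s' A, (onext w a s' A).2.1 - (a.2.1 + 1), smStep_iff.2 ⟨s', A, hA, rfl⟩,
      ⟨_, _, _, rfl, by omega, h2⟩, by omega⟩
  nfin := by
    rintro n a x ⟨t, c, st, rfl, h1, h⟩ ⟨s, h2, h3⟩
    have h4 := h.state
    change c = SM.Ctl.main s at h3
    subst h3
    change s = a.1 at h4
    rw [← h4]; exact h2
  nxt := by
    rintro n a x ⟨t, c, st, rfl, h1, h⟩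
    obtain ⟨y, hy⟩ := h.exists_next (by omega)
    exact ⟨_, (N.step_cfg w _ _ _ _).2 ⟨y, hy, rfl⟩⟩
  det := by
    rintro n a x x' ⟨t, c, st, rfl, h1, h⟩ hs
    obtain ⟨y, hy, rfl⟩ := (N.step_cfg w _ _ _ _).1 hs
    exact ⟨n, le_rfl, _, _, _, rfl, by omega, h.next (by omega) y hy⟩

theorem sm_start (w : List α) : OP N w 0 (N.init, 0, []) N.toPDA.start := by
  refine ⟨0, _, _, SM.start_eq N w, rfl, rfl, 0, ?_, rfl⟩
  simp

end sm

end Pool.Agent.V8H47.ALT
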