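import Pool.Agent.V8H47.ALT.Obl

/-!
# From alternating pushdown automata to schedule machines
-/

namespace Pool.Agent.V8H47.ALT

open Pool.Agent.V8H47.MH Pool.Agent.V8H47.OW

variable {α Γ : Type} {k : ℕ} (M : PDA α (Fin k) Γ)

/-- state of the simulated automaton -/
def msQ {Q : Type} : MS Q k → Q
  | .main q => q
  | .mv q _ _ => q

open Classical in
/-- is the direction of the next head to be moved the wrong one? -/
noncomputable def wr (w : List α) (t : ℕ) (m : Fin k → Dir) (j : Fin (k + 1)) : ℕ :=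
  if ∃ h : (j : ℕ) < k, ∃ b, want (m ⟨j, h⟩) (syms w k t ⟨j, h⟩) = some b ∧
    dirs k (w.length + 2) t ⟨j, h⟩ ≠ b then 1 else 0

theorem wr_le (w : List α) (t : ℕ) (m : Fin k → Dir) (j : Fin (k + 1)) : wr w t m j ≤ 1 := by
  unfold wr
  split_ifs <;> omega

/-- The relation. -/
def MP (w : List α) (n : ℕ) (c : PCfg M.Q (Fin k) Γ) (x : MS M.Q k × ℕ × List Γ) : Prop :=
  match x.1 with
  | .main q => n = 0 ∧ c = ⟨q, tup k (w.length + 2) x.2.1, x.2.2⟩
  | .mv q m j => (∃ p : Fin k → ℕ, c = ⟨q, fun i => (m i).move w.length (p i), x.2.2⟩ ∧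
      ∀ i, tup k (w.length + 2) x.2.1 i = if (i : ℕ) < j then (m i).move w.length (p i) else p i) ∧
      2 * (k - j) + 1 + wr w x.2.1 m j ≤ n

theorem mp_mv (w : List α) {n : ℕ} {c : PCfg M.Q (Fin k) Γ} {q : M.Q} {m : Fin k → Dir}
    {i : Fin (k + 1)} {t : ℕ} {σ : List Γ} (h : MP M w (n + 1) c (.mv q m i, t, σ))
    {s' : MS M.Q k} {j : Fin (k + 1)}
    (hact' : (s', Act.mir (Γ := Γ) j) = mvAct M.Q q m i (syms w k t) (dirs k (w.length + 2) t)) :
    ∃ n' ≤ n, MP M w n' c (s', mirror (w.length + 2) j t, σ) := by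
  have hr : 0 < w.length + 2 := by omega
  have htop := fun t => mirror_top (k := k) (w.length + 2) t hr
  have hlt : ∀ t (i : Fin k), tup k (w.length + 2) t i < w.length + 2 := fun t i => zig_lt hr _
  obtain ⟨⟨p, hR, hp⟩, hn⟩ := h
  simp only at hR hp hn
  unfold mvAct at hact'
  by_cases h : (i : ℕ) < k
  · simp only [h, dif_pos] at hact'
    have hpi : tup k (w.length + 2) t ⟨i, h⟩ = p ⟨i, h⟩ := by
      rw [hp]; simp
    have hlti := hlt t ⟨i, h⟩
    cases hw : want (m ⟨i, h⟩) (syms w k t ⟨i, h⟩) with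
    | none =>
      rw [hw] at hact'
      simp only [Prod.mk.injEq, Act.mir.injEq] at hact'
      obtain ⟨rfl, rfl⟩ := hact'
      have hmv := want_none w hlti hw
      refine ⟨n, le_rfl, ⟨p, hR, fun l => ?_⟩, ?_⟩
      · simp only [Fin.val_last]
        rw [(htop t).1, hp]
        by_cases hl : (l : ℕ) < i
        · have : (l : ℕ) < i + 1 := by omega
          simp [hl, this]
        · by_cases hl2 : (l : ℕ) = i
          · have : l = ⟨i, h⟩ := Fin.ext hl2
            subst this
            rw [hpi] at hmv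
            simp [hmv]
          · have : ¬ (l : ℕ) < i + 1 := by omega
            simp [hl, this]
      · have := wr_le w (mirror (w.length + 2) (Fin.last k) t) m ⟨i + 1, by omega⟩
        simp only [Fin.val_last] at this ⊢
        omega
    | some b =>
      rw [hw] at hact'
      have hmv := want_some w hlti hw
      simp only at hact'
      by_cases hb : dirs k (w.length + 2) t ⟨i, h⟩ = b
      · simp only [hb, if_true] at hact'
        simp only [Prod.mk.injEq, Act.mir.injEq] at hact'
        obtain ⟨rfl, rfl⟩ := hact'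
        refine ⟨n, le_rfl, ⟨p, hR, fun l => ?_⟩, ?_⟩
        · have hne : (t / (w.length + 2) ^ (((⟨j, h⟩ : Fin k)) : ℕ)) % (w.length + 2) ≠
              w.length + 2 - 1 := by
            have h1 := (atEnd_syms w k t ⟨j, h⟩).not.1
            rw [hb] at h1
            have h2 := h1 hmv.1
            simpa using h2
          have hml := mirror_level (k := k) (w.length + 2) t hr ⟨j, h⟩ hne l
          simp only at hml ⊢
          rw [hml]
          by_cases hl2 : l = ⟨j, h⟩
          · subst hl2
            simp only [if_true, hb]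
            rw [hpi] at hmv
            rw [hpi]
            have : (j : ℕ) < j + 1 := by omega
            simp only [this, if_true]
            exact hmv.2.symm
          · simp only [hl2, if_false]
            rw [hp]
            have hl3 : (l : ℕ) ≠ j := fun h' => hl2 (Fin.ext h')
            by_cases hl : (l : ℕ) < j
            · have : (l : ℕ) < j + 1 := by omega
              simp [hl, this]
            · have : ¬ (l : ℕ) < j + 1 := by omega
              simp [hl, this]
        · have := wr_le w (mirror (w.length + 2) j t) m ⟨j + 1, by omega⟩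
          simp only at this ⊢
          omega
      · simp only [hb, if_false] at hact'
        simp only [Prod.mk.injEq, Act.mir.injEq] at hact'
        obtain ⟨rfl, rfl⟩ := hact'
        have hw1 : wr w t m i = 1 := by
          unfold wr
          rw [if_pos ⟨h, b, hw, hb⟩]
        have hsy : syms w k (mirror (w.length + 2) k t) = syms w k t := by
          funext l
          unfold syms
          rw [(htop t).1]
        have hw2 : wr w (mirror (w.length + 2) k t) m i = 0 := by
          unfold wr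
          rw [if_neg]
          rintro ⟨_, b', h1, h2⟩
          rw [hsy, hw, Option.some.injEq] at h1
          subst h1
          rw [(htop t).2] at h2
          cases h3 : dirs k (w.length + 2) t ⟨i, h⟩ <;> cases b <;> simp_all
        refine ⟨n, le_rfl, ⟨p, hR, fun l => ?_⟩, ?_⟩
        · simp only [Fin.val_last]
          rw [(htop t).1, hp]
        · simp only [Fin.val_last]
          rw [hw2]
          omega
  · simp only [h, dif_neg, not_false_eq_true] at hact'
    simp only [Prod.mk.injEq, Act.mir.injEq] at hact'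
    obtain ⟨rfl, rfl⟩ := hact'
    refine ⟨0, Nat.zero_le _, rfl, ?_⟩
    simp only [Fin.val_last]
    rw [(htop t).1]
    have : tup k (w.length + 2) t = fun i => (m i).move w.length (p i) := by
      funext l
      rw [hp]
      have : (l : ℕ) < i := by omega
      simp [this]
    rw [this]
    exact hR

theorem mvAct_mir (w : List α) (q : M.Q) (m : Fin k → Dir) (i : Fin (k + 1)) (t : ℕ) :
    ∃ s' j, (s', Act.mir (Γ := Γ) j) = mvAct M.Q q m i (syms w k t) (dirs k (w.length + 2) t) := by
  unfold mvAct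
  split_ifs with h
  · cases hw : want (m ⟨i, h⟩) (syms w k t ⟨i, h⟩) with
    | none => exact ⟨_, _, rfl⟩
    | some b =>
      simp only
      split_ifs
      · exact ⟨_, _, rfl⟩
      · exact ⟨_, _, rfl⟩
  · exact ⟨_, _, rfl⟩

theorem mp_main (w : List α) {c : PCfg M.Q (Fin k) Γ} {x : MS M.Q k × ℕ × List Γ}
    (h : MP M w 0 c x) : x.1 = .main c.q ∧ c.pos = tup k (w.length + 2) x.2.1 ∧ c.st = x.2.2 := by
  obtain ⟨s, t, σ⟩ := x
  cases s with
  | main q =>
    obtain ⟨_, rfl⟩ := h
    exact ⟨rfl, rfl, rfl⟩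
  | mv q m j =>
    obtain ⟨_, h2⟩ := h
    omega

theorem mp_op (w : List α) (t : ℕ) (σ : List Γ) (y : M.Q × (Fin k → Dir) × Op Γ) :
    MP M w (2 * k + 2) ⟨y.1, fun h => (y.2.1 h).move w.length (tup k (w.length + 2) t h),
      y.2.2.apply σ⟩ (.mv y.1 y.2.1 0, mirror (w.length + 2) k t, y.2.2.apply σ) := by
  have hr : 0 < w.length + 2 := by omega
  refine ⟨⟨tup k (w.length + 2) t, rfl, fun i => ?_⟩, ?_⟩
  · simp only
    rw [(mirror_top (k := k) (w.length + 2) t hr).1]
    simp
  · have := wr_le w (mirror (w.length + 2) k t) y.2.1 0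
    simp only [Fin.val_zero]
    omega

theorem ms_sim (V : Set M.Q) (w : List α) :
    TSim (M.Step w) (fun c => c.q ∈ V) (fun c => c.q ∈ M.acc)
      (smStep M.toSM w) (fun x => msQ x.1 ∈ V) (fun x => x.1 ∈ M.toSM.acc)
      (MP M w) (2 * k + 2) where
  lab := by
    rintro n c ⟨s, t, σ⟩ h
    cases s with
    | main q =>
      obtain ⟨_, rfl⟩ := h
      exact Iff.rfl
    | mv q m j =>
      obtain ⟨⟨p, rfl, _⟩, _⟩ := h
      exact Iff.rfl
  fin := by
    rintro c ⟨s, t, σ⟩ h
    obtain ⟨h1, _⟩ := mp_main M w h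
    simp only at h1
    subst h1
    constructor
    · intro h2
      exact ⟨c.q, h2, rfl⟩
    · rintro ⟨q, h2, h3⟩
      simp only [MS.main.injEq] at h3
      rw [h3]; exact h2
  fwd := by
    rintro c ⟨s, t, σ⟩ c' h ⟨y, hy, rfl⟩
    obtain ⟨h1, h2, h3⟩ := mp_main M w h
    obtain ⟨q, pos, st⟩ := c
    simp only at h1 h2 h3 hy ⊢
    subst h1 h2 h3
    refine ⟨(.mv y.1 y.2.1 0, mirror (w.length + 2) k t, y.2.2.apply st), 2 * k + 2,
      Or.inr ⟨y.2.2, ?_, rfl, rfl⟩, mp_op M w t st y⟩
    exact ⟨y, hy, rfl⟩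
  bwd := by
    rintro c ⟨s, t, σ⟩ ⟨s', t', σ'⟩ h hs
    obtain ⟨h1, h2, h3⟩ := mp_main M w h
    obtain ⟨q, pos, st⟩ := c
    simp only at h1 h2 h3
    subst h1 h2 h3
    rcases hs with ⟨j, h4, _, _⟩ | ⟨o, h4, h5, h6⟩
    · obtain ⟨y, _, h5⟩ := h4
      exact absurd (Prod.mk.inj h5).2 (by simp)
    · simp only at h4 h5 h6
      subst h5 h6
      obtain ⟨y, hy, h5⟩ := h4
      obtain ⟨h7, h8⟩ := Prod.mk.inj h5
      obtain rfl := Act.op.inj h8
      subst h7
      exact ⟨_, 2 * k + 2, ⟨y, hy, rfl⟩, mp_op M w t st y, le_rfl⟩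
  nfin := by
    rintro n c ⟨s, t, σ⟩ h ⟨q, h2, h3⟩
    simp only at h3
    subst h3
    obtain ⟨h4, _⟩ := h
    omega
  nxt := by
    rintro n c ⟨s, t, σ⟩ h
    cases s with
    | main q =>
      obtain ⟨h4, _⟩ := h
      omega
    | mv q m i =>
      obtain ⟨s', j, hj⟩ := mvAct_mir M w q m i t
      exact ⟨(s', mirror (w.length + 2) j t, σ), Or.inl ⟨j, hj, rfl, rfl⟩⟩
  det := by
    rintro n c ⟨s, t, σ⟩ ⟨s', t', σ'⟩ h hs
    cases s with
    | main q =>
      obtain ⟨h4, _⟩ := h
      omega
    | mv q m i =>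
      rcases hs with ⟨j, h4, h5, h6⟩ | ⟨o, h4, _, _⟩
      · simp only at h4 h5 h6
        subst h5 h6
        exact mp_mv M w h h4
      · obtain ⟨s'', j, hj⟩ := mvAct_mir M w q m i t
        have h5 : (s', Act.op o) = mvAct M.Q q m i (syms w k t) (dirs k (w.length + 2) t) := h4
        rw [← hj] at h5
        exact absurd (Prod.mk.inj h5).2 (by simp)

theorem ms_start (w : List α) : MP M w 0 M.start (M.toSM.init, 0, []) := by
  refine ⟨rfl, ?_⟩
  unfold PDA.start
  congr 1
  funext i; simp [tup, SM.zig_zero]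

end Pool.Agent.V8H47.ALT
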