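import Pool.Agent.V8H47.ALT.Defs

/-!
# Alternating multihead pushdown automata: time classes, oblivious heads
-/

namespace Pool.Agent.V8H47.ALT

open Pool.Agent.V8H47.MH

/-- The languages of alternating two-way `k`-head pushdown automata with at most `b` blocks, the
first one existential, in time `O(n ^ c)`: the initial state is not universal, and every run on an
input of length `n` has at most `C * (n + 2) ^ c` steps and less than `b` changes between universal
and nonuniversal states, for a constant `C`. -/
def sigPDAT (b k c : ℕ) (α : Type) : Set (Language α) :=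
  {L | ∃ (Γ : Type) (_ : Finite Γ) (M : APDA α (Fin k) Γ) (C : ℕ), M.init ∉ M.U ∧
    (∀ (w : List α) (t j : ℕ) (x : PCfg M.Q (Fin k) Γ),
      Run (M.Step w) (fun x => x.q ∈ M.U) M.start t j x → t ≤ C * (w.length + 2) ^ c ∧ j < b) ∧
    M.altLang = L}

/-- The same with oblivious heads: in every configuration that some run reaches in `t` steps, head
`i` is at position `zig r (t / r ^ i)`, where `r = n + 2` and `n` is the length of the input. -/
def sigPDATObl (b k c : ℕ) (α : Type) : Set (Language α) :=
  {L | ∃ (Γ : Type) (_ : Finite Γ) (M : APDA α (Fin k) Γ) (C : ℕ), M.init ∉ M.U ∧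
    (∀ (w : List α) (t j : ℕ) (x : PCfg M.Q (Fin k) Γ),
      Run (M.Step w) (fun x => x.q ∈ M.U) M.start t j x → t ≤ C * (w.length + 2) ^ c ∧ j < b) ∧
    (∀ (w : List α) (t : ℕ) (x : PCfg M.Q (Fin k) Γ), M.ReachIn w t x →
      ∀ i : Fin k, x.pos i = zig (w.length + 2) (t / (w.length + 2) ^ (i : ℕ))) ∧
    M.altLang = L}

end Pool.Agent.V8H47.ALT
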