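import Pool.Agent.V8H47.ALT.Obl2
import Pool.Agent.V8H47.ALT.TimeDefs

/-!
# The oblivious alternating automaton
-/

namespace Pool.Agent.V8H47.ALT

open Pool.Agent.V8H47.MH Pool.Agent.V8H47.OW

variable {α Γ : Type} {k : ℕ}

/-- the oblivious alternating automaton -/
noncomputable def APDA.obl (M : APDA α (Fin k) Γ) : APDA α (Fin k) (Option Γ) where
  toPDA := M.toSM.toPDA
  U := {q | msQ (ctlS q.2) ∈ M.U}

theorem APDA.altLang_obl (M : APDA α (Fin k) Γ) : M.obl.altLang = M.altLang := by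
  ext w
  exact ((sm_sim (N := M.toSM) {s | msQ s ∈ M.U} w).iff_acc (sm_start w)).symm.trans
    ((ms_sim M.toPDA M.U w).iff_acc (ms_start M.toPDA w)).symm

theorem APDA.run_obl (M : APDA α (Fin k) Γ) (w : List α) {t j : ℕ}
    {x : PCfg M.obl.Q (Fin k) (Option Γ)}
    (h : Run (M.obl.Step w) (fun x => x.q ∈ M.obl.U) M.obl.start t j x) :
    ∃ t' c, Run (M.Step w) (fun x => x.q ∈ M.U) M.start t' j c ∧
      t ≤ 2 * (w.length + 2) ^ k + (2 * (w.length + 2) ^ k + 1) *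
        ((2 * k + 2) + (2 * k + 3) * t') := by
  obtain ⟨t1, x1, n1, h1, _, h2⟩ :=
    (sm_sim (N := M.toSM) {s | msQ s ∈ M.U} w).run (sm_start w) (Nat.zero_le _) h
  obtain ⟨t2, x2, n2, h3, _, h4⟩ :=
    (ms_sim M.toPDA M.U w).run (ms_start M.toPDA w) (Nat.zero_le _) h1
  refine ⟨t2, x2, h3, ?_⟩
  have e1 : 2 * k + 2 + 1 = 2 * k + 3 := rfl
  rw [e1] at h4
  have h5 : t1 ≤ (2 * k + 2) + (2 * k + 3) * t2 := by omega
  have h6 := Nat.mul_le_mul_left (2 * (w.length + 2) ^ k + 1) h5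
  omega

theorem time_bound (r k c C t : ℕ) (hr : 1 ≤ r) (h : t ≤ C * r ^ c) :
    2 * r ^ k + (2 * r ^ k + 1) * ((2 * k + 2) + (2 * k + 3) * t) ≤
      (2 + 3 * ((2 * k + 2) + (2 * k + 3) * C)) * r ^ (k + c) := by
  have h1 : 1 ≤ r ^ k := Nat.pow_pos hr
  have h2 : 1 ≤ r ^ c := Nat.pow_pos hr
  have h3 : (2 * k + 2) + (2 * k + 3) * t ≤ ((2 * k + 2) + (2 * k + 3) * C) * r ^ c := by
    calc (2 * k + 2) + (2 * k + 3) * t ≤ (2 * k + 2) * r ^ c + (2 * k + 3) * (C * r ^ c) :=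
          Nat.add_le_add (Nat.le_mul_of_pos_right _ h2) (Nat.mul_le_mul_left _ h)
      _ = _ := by ring
  calc 2 * r ^ k + (2 * r ^ k + 1) * ((2 * k + 2) + (2 * k + 3) * t)
      ≤ 2 * (r ^ k * r ^ c) + (3 * r ^ k) * (((2 * k + 2) + (2 * k + 3) * C) * r ^ c) := by
        refine Nat.add_le_add (Nat.mul_le_mul_left _ (Nat.le_mul_of_pos_right _ h2))
          (Nat.mul_le_mul (by omega) h3)
    _ = (2 + 3 * ((2 * k + 2) + (2 * k + 3) * C)) * r ^ (k + c) := by rw [pow_add]; ring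

/-- **Oblivious heads.** -/
theorem sigPDAT_subset (b k c : ℕ) (α : Type) : sigPDAT b k c α ⊆ sigPDATObl b k (k + c) α := by
  rintro L ⟨Γ, _, M, C, h0, hM, rfl⟩
  refine ⟨Option Γ, inferInstance, M.obl, 2 + 3 * ((2 * k + 2) + (2 * k + 3) * C), h0, ?_, ?_,
    M.altLang_obl⟩
  · intro w t j x hx
    obtain ⟨t', c', h1, h2⟩ := M.run_obl w hx
    obtain ⟨h3, h4⟩ := hM w t' j c' h1
    exact ⟨h2.trans (time_bound _ k c C t' (by omega) h3), h4⟩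
  · exact fun w t x h i => M.toSM.sched_toPDA w t x h i

theorem sigPDATObl_subset (b k c : ℕ) (α : Type) : sigPDATObl b k c α ⊆ sigPDAT b k c α := by
  rintro L ⟨Γ, hΓ, M, C, h0, hM, _, rfl⟩
  exact ⟨Γ, hΓ, M, C, h0, hM, rfl⟩

theorem sigPDA_eq (b : ℕ) (α : Type) : sigPDA b α = {L | ∃ k c, L ∈ sigPDAT b k c α} := by
  ext L
  constructor
  · rintro ⟨k, Γ, hΓ, M, ⟨h0, e, h1⟩, rfl⟩
    refine ⟨k, e, Γ, hΓ, M, 1, h0, ?_, rfl⟩
    intro w t j x hx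
    rw [one_mul]
    exact h1 w t j x hx
  · rintro ⟨k, c, Γ, hΓ, M, C, h0, h1, rfl⟩
    refine ⟨k, Γ, hΓ, M, ⟨h0, C + c, ?_⟩, rfl⟩
    intro w t j x hx
    obtain ⟨h2, h3⟩ := h1 w t j x hx
    refine ⟨h2.trans ?_, h3⟩
    rw [pow_add]
    exact Nat.mul_le_mul_right _ (Nat.lt_pow_self (by omega)).le

end Pool.Agent.V8H47.ALT
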