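import Pool.Agent.V8H47.ALT.Defs

/-!
# Simulations of alternating transition systems
-/

namespace Pool.Agent.V8H47.ALT

/-- A simulation: main states are simulated step by step, the others are on a deterministic path
to a main state. -/
structure ASim {A B : Type} (r : A → A → Prop) (U F : A → Prop) (s : B → B → Prop)
    (V G : B → Prop) (P : A → B → Prop) (Mn : B → Prop) (μ : B → ℕ) (b0 : ℕ) : Prop where
  lab : ∀ a b, P a b → (U a ↔ V b)
  fin : ∀ a b, P a b → Mn b → (F a ↔ G b)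
  fwd : ∀ a b a', P a b → Mn b → r a a' → ∃ b', s b b' ∧ P a' b'
  bwd : ∀ a b b', P a b → Mn b → s b b' → (∃ a', r a a' ∧ P a' b') ∧ μ b' ≤ b0
  nfin : ∀ a b, P a b → ¬ Mn b → ¬ G b
  nxt : ∀ a b, P a b → ¬ Mn b → ∃ b1, s b b1
  det : ∀ a b b', P a b → ¬ Mn b → s b b' → P a b' ∧ μ b' < μ b

variable {A B : Type} {r : A → A → Prop} {U F : A → Prop} {s : B → B → Prop}
  {V G : B → Prop} {P : A → B → Prop} {Mn : B → Prop} {μ : B → ℕ} {b0 : ℕ}

theorem ASim.fwd_acc (h : ASim r U F s V G P Mn μ b0) {a : A} (ha : AltAcc r U F a) :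
    ∀ b, P a b → AltAcc s V G b := by
  have key : ∀ a, (∀ b, P a b → Mn b → AltAcc s V G b) → ∀ n b, μ b = n → P a b →
      AltAcc s V G b := by
    intro a ha n
    induction n using Nat.strong_induction_on with
    | _ n ih =>
      intro b hb hP
      by_cases hm : Mn b
      · exact ha b hP hm
      · by_cases hv : V b
        · refine AltAcc.all hv ?_
          intro b' hb'
          obtain ⟨h1, h2⟩ := h.det a b b' hP hm hb'
          exact ih _ (hb ▸ h2) b' rfl h1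
        · obtain ⟨b', hb'⟩ := h.nxt a b hP hm
          obtain ⟨h1, h2⟩ := h.det a b b' hP hm hb'
          exact AltAcc.ex hv hb' (ih _ (hb ▸ h2) b' rfl h1)
  induction ha with
  | acc hf =>
    intro b hP
    exact key _ (fun b hP hm => AltAcc.acc ((h.fin _ _ hP hm).1 hf)) _ b rfl hP
  | ex hu hr _ ih =>
    intro b hP
    refine key _ (fun b hP hm => ?_) _ b rfl hP
    obtain ⟨b', h1, h2⟩ := h.fwd _ _ _ hP hm hr
    exact AltAcc.ex (fun hv => hu ((h.lab _ _ hP).2 hv)) h1 (ih b' h2)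
  | all hu _ ih =>
    intro b hP
    refine key _ (fun b hP hm => ?_) _ b rfl hP
    refine AltAcc.all ((h.lab _ _ hP).1 hu) ?_
    intro b' hb'
    obtain ⟨⟨a', h1, h2⟩, _⟩ := h.bwd _ _ _ hP hm hb'
    exact ih a' h1 b' h2

theorem ASim.bwd_acc (h : ASim r U F s V G P Mn μ b0) {b : B} (hb : AltAcc s V G b) :
    ∀ a, P a b → AltAcc r U F a := by
  induction hb with
  | @acc b hg =>
    intro a hP
    by_cases hm : Mn b
    · exact AltAcc.acc ((h.fin _ _ hP hm).2 hg)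
    · exact absurd hg (h.nfin _ _ hP hm)
  | @ex b b' hv hs _ ih =>
    intro a hP
    by_cases hm : Mn b
    · obtain ⟨⟨a', h1, h2⟩, _⟩ := h.bwd _ _ _ hP hm hs
      exact AltAcc.ex (fun hu => hv ((h.lab _ _ hP).1 hu)) h1 (ih a' h2)
    · exact ih a (h.det _ _ _ hP hm hs).1
  | @all b hv _ ih =>
    intro a hP
    by_cases hm : Mn b
    · refine AltAcc.all ((h.lab _ _ hP).2 hv) ?_
      intro a' hr
      obtain ⟨b', h1, h2⟩ := h.fwd _ _ _ hP hm hr
      exact ih b' h1 a' h2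
    · obtain ⟨b', hb'⟩ := h.nxt a b hP hm
      exact ih b' hb' a (h.det _ _ _ hP hm hb').1

theorem ASim.iff_acc (h : ASim r U F s V G P Mn μ b0) {a : A} {b : B} (hP : P a b) :
    AltAcc r U F a ↔ AltAcc s V G b :=
  ⟨fun h1 => h.fwd_acc h1 b hP, fun h1 => h.bwd_acc h1 a hP⟩

theorem ASim.run (h : ASim r U F s V G P Mn μ b0) {a₀ : A} {b₀ : B} (hP : P a₀ b₀)
    (hμ : μ b₀ ≤ b0) {t j : ℕ} {b : B} (hb : Run s V b₀ t j b) :
    ∃ t' a, Run r U a₀ t' j a ∧ P a b ∧ t + μ b ≤ b0 + (b0 + 1) * t' := by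
  induction hb with
  | start => exact ⟨0, a₀, .start, hP, by omega⟩
  | @same t j b b' _ hs hv ih =>
    obtain ⟨t', a, h1, h2, h3⟩ := ih
    by_cases hm : Mn b
    · obtain ⟨⟨a', h4, h5⟩, h6⟩ := h.bwd _ _ _ h2 hm hs
      refine ⟨t' + 1, a', .same h1 h4 ?_, h5, ?_⟩
      · rw [h.lab _ _ h2, h.lab _ _ h5]; exact hv
      · rw [Nat.mul_succ]; omega
    · obtain ⟨h4, h5⟩ := h.det _ _ _ h2 hm hs
      exact ⟨t', a, h1, h4, by omega⟩
  | @alt t j b b' _ hs hv ih =>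
    obtain ⟨t', a, h1, h2, h3⟩ := ih
    by_cases hm : Mn b
    · obtain ⟨⟨a', h4, h5⟩, h6⟩ := h.bwd _ _ _ h2 hm hs
      refine ⟨t' + 1, a', .alt h1 h4 ?_, h5, ?_⟩
      · rw [h.lab _ _ h2, h.lab _ _ h5]; exact hv
      · rw [Nat.mul_succ]; omega
    · obtain ⟨h4, h5⟩ := h.det _ _ _ h2 hm hs
      exact absurd ((h.lab _ _ h2).symm.trans (h.lab _ _ h4)) hv

/-- a time bound -/
theorem pow_time (b0 e : ℕ) : ∃ e', ∀ r, 2 ≤ r → b0 + (b0 + 1) * r ^ e ≤ r ^ e' := by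
  refine ⟨e + (b0 + 1) + (b0 + 1), fun r hr => ?_⟩
  have h3 : b0 + 1 < r ^ (b0 + 1) := Nat.lt_pow_self (by omega)
  have hp : 0 < r ^ e := Nat.pow_pos (by omega)
  have hq : 0 < r ^ (b0 + 1) := Nat.pow_pos (by omega)
  have h4 : 2 ≤ r ^ (b0 + 1) := le_trans hr (Nat.le_self_pow (by omega) _)
  calc b0 + (b0 + 1) * r ^ e ≤ (b0 + 1) * r ^ e + (b0 + 1) * r ^ e := by nlinarith
    _ = r ^ e * (b0 + 1) * 2 := by ring
    _ ≤ r ^ e * r ^ (b0 + 1) * r ^ (b0 + 1) := by gcongr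
    _ = _ := by rw [← pow_add, ← pow_add]

/-- A step-by-step simulation (bisimulation). -/
theorem bisim (P : A → B → Prop) (hl : ∀ a b, P a b → (U a ↔ V b))
    (hf : ∀ a b, P a b → (F a ↔ G b))
    (h1 : ∀ a b a', P a b → r a a' → ∃ b', s b b' ∧ P a' b')
    (h2 : ∀ a b b', P a b → s b b' → ∃ a', r a a' ∧ P a' b') :
    ASim r U F s V G P (fun _ => True) (fun _ => 0) 0 where
  lab := hl
  fin a b h _ := hf a b h
  fwd a b a' h _ hr := h1 a b a' h hr
  bwd a b b' h _ hs := ⟨h2 a b b' h hs, le_rfl⟩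
  nfin a b _ h := absurd trivial h
  nxt a b _ h := absurd trivial h
  det a b b' _ h := absurd trivial h

end Pool.Agent.V8H47.ALT
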