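import Pool.Agent.V8H47.ALT.Thin

/-!
# Simulations of alternating transition systems, with the distance to the next main state
-/

namespace Pool.Agent.V8H47.ALT

/-- `P n a b`: `b` is on a deterministic path of length `n` (at most) to a main state for `a`. -/
structure TSim {A B : Type} (r : A → A → Prop) (U F : A → Prop) (s : B → B → Prop)
    (V G : B → Prop) (P : ℕ → A → B → Prop) (b0 : ℕ) : Prop where
  lab : ∀ n a b, P n a b → (U a ↔ V b)
  fin : ∀ a b, P 0 a b → (F a ↔ G b)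
  fwd : ∀ a b a', P 0 a b → r a a' → ∃ b' n, s b b' ∧ P n a' b'
  bwd : ∀ a b b', P 0 a b → s b b' → ∃ a' n, r a a' ∧ P n a' b' ∧ n ≤ b0
  nfin : ∀ n a b, P (n + 1) a b → G b → F a
  nxt : ∀ n a b, P (n + 1) a b → ∃ b1, s b b1
  det : ∀ n a b b', P (n + 1) a b → s b b' → ∃ m ≤ n, P m a b'

variable {A B : Type} {r : A → A → Prop} {U F : A → Prop} {s : B → B → Prop}
  {V G : B → Prop} {P : ℕ → A → B → Prop} {b0 : ℕ}

theorem TSim.fwd_acc (h : TSim r U F s V G P b0) {a : A} (ha : AltAcc r U F a) :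
    ∀ n b, P n a b → AltAcc s V G b := by
  have key : ∀ a, (∀ b, P 0 a b → AltAcc s V G b) → ∀ n b, P n a b → AltAcc s V G b := by
    intro a ha n
    induction n using Nat.strong_induction_on with
    | _ n ih =>
      intro b hP
      cases n with
      | zero => exact ha b hP
      | succ n =>
        by_cases hv : V b
        · refine AltAcc.all hv ?_
          intro b' hb'
          obtain ⟨m, h1, h2⟩ := h.det n a b b' hP hb'
          exact ih m (by omega) b' h2
        · obtain ⟨b', hb'⟩ := h.nxt n a b hP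
          obtain ⟨m, h1, h2⟩ := h.det n a b b' hP hb'
          exact AltAcc.ex hv hb' (ih m (by omega) b' h2)
  induction ha with
  | acc hf => exact key _ (fun b hP => AltAcc.acc ((h.fin _ _ hP).1 hf))
  | ex hu hr _ ih =>
    refine key _ (fun b hP => ?_)
    obtain ⟨b', n, h1, h2⟩ := h.fwd _ _ _ hP hr
    exact AltAcc.ex (fun hv => hu ((h.lab _ _ _ hP).2 hv)) h1 (ih n b' h2)
  | all hu _ ih =>
    refine key _ (fun b hP => ?_)
    refine AltAcc.all ((h.lab _ _ _ hP).1 hu) ?_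
    intro b' hb'
    obtain ⟨a', n, h1, h2, _⟩ := h.bwd _ _ _ hP hb'
    exact ih a' h1 n b' h2

theorem TSim.bwd_acc (h : TSim r U F s V G P b0) {b : B} (hb : AltAcc s V G b) :
    ∀ n a, P n a b → AltAcc r U F a := by
  induction hb with
  | @acc b hg =>
    intro n a hP
    cases n with
    | zero => exact AltAcc.acc ((h.fin _ _ hP).2 hg)
    | succ n => exact AltAcc.acc (h.nfin _ _ _ hP hg)
  | @ex b b' hv hs _ ih =>
    intro n a hP
    cases n with
    | zero =>
      obtain ⟨a', n, h1, h2, _⟩ := h.bwd _ _ _ hP hs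
      exact AltAcc.ex (fun hu => hv ((h.lab _ _ _ hP).1 hu)) h1 (ih n a' h2)
    | succ n =>
      obtain ⟨m, _, h2⟩ := h.det _ _ _ _ hP hs
      exact ih m a h2
  | @all b hv _ ih =>
    intro n a hP
    cases n with
    | zero =>
      refine AltAcc.all ((h.lab _ _ _ hP).2 hv) ?_
      intro a' hr
      obtain ⟨b', n, h1, h2⟩ := h.fwd _ _ _ hP hr
      exact ih b' h1 n a' h2
    | succ n =>
      obtain ⟨b', hb'⟩ := h.nxt _ a b hP
      obtain ⟨m, _, h2⟩ := h.det _ _ _ _ hP hb'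
      exact ih b' hb' m a h2

theorem TSim.iff_acc (h : TSim r U F s V G P b0) {n : ℕ} {a : A} {b : B} (hP : P n a b) :
    AltAcc r U F a ↔ AltAcc s V G b :=
  ⟨fun h1 => h.fwd_acc h1 n b hP, fun h1 => h.bwd_acc h1 n a hP⟩

theorem TSim.run (h : TSim r U F s V G P b0) {a₀ : A} {b₀ : B} {n₀ : ℕ} (hP : P n₀ a₀ b₀)
    (hμ : n₀ ≤ b0) {t j : ℕ} {b : B} (hb : Run s V b₀ t j b) :
    ∃ t' a n, Run r U a₀ t' j a ∧ P n a b ∧ t + n ≤ b0 + (b0 + 1) * t' := by
  induction hb with
  | start => exact ⟨0, a₀, n₀, .start, hP, by omega⟩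
  | @same t j b b' _ hs hv ih =>
    obtain ⟨t', a, n, h1, h2, h3⟩ := ih
    cases n with
    | zero =>
      obtain ⟨a', n', h4, h5, h6⟩ := h.bwd _ _ _ h2 hs
      refine ⟨t' + 1, a', n', .same h1 h4 ?_, h5, ?_⟩
      · rw [h.lab _ _ _ h2, h.lab _ _ _ h5]; exact hv
      · rw [Nat.mul_succ]; omega
    | succ n =>
      obtain ⟨m, h4, h5⟩ := h.det _ _ _ _ h2 hs
      exact ⟨t', a, m, h1, h5, by omega⟩
  | @alt t j b b' _ hs hv ih =>
    obtain ⟨t', a, n, h1, h2, h3⟩ := ih
    cases n with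
    | zero =>
      obtain ⟨a', n', h4, h5, h6⟩ := h.bwd _ _ _ h2 hs
      refine ⟨t' + 1, a', n', .alt h1 h4 ?_, h5, ?_⟩
      · rw [h.lab _ _ _ h2, h.lab _ _ _ h5]; exact hv
      · rw [Nat.mul_succ]; omega
    | succ n =>
      obtain ⟨m, h4, h5⟩ := h.det _ _ _ _ h2 hs
      exact absurd ((h.lab _ _ _ h2).symm.trans (h.lab _ _ _ h5)) hv

end Pool.Agent.V8H47.ALT
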